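import Pool.Agent.MWFE.StmtsB

/-!
# Squad MWFE, row BLN (second version)
-/

set_option autoImplicit false

namespace Pool.Agent.MWFE.H85

open Pool.Agent.Helper14_MV Pool.Agent.Helper2_MV Pool.Agent.MVD
open Pool.Agent.MWE (Can XX fxy dxy dx dy up cp L4 pr Xs xl isx Fs nd nr)
open Pool.Agent.MWGR (cb)

theorem tr {β : FIC} {u v w : List ℕ} (h : RR β u v) (h' : RR β v w) : RR β u w := β.trans h h'

/-- `z^i` -/
abbrev Zr (z i : ℕ) : List ℕ := List.replicate i z

/-- the letters `0`, `3`, `z` -/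
def pp (z : ℕ) : ℕ → Bool := fun a => decide (a = 0 ∨ a = 3 ∨ a = z)

theorem cb_cons_ne {z v a : ℕ} (L : List ℕ) (h : a ≠ v) :
    cb (a :: L) z v = (if a = z then 1 else 0) + cb L z v := by
  unfold cb
  rw [List.takeWhile_cons_of_pos (by simpa using h), List.count_cons]
  simp only [beq_iff_eq]
  omega

theorem cb_cons_eq {z v : ℕ} (L : List ℕ) : cb (v :: L) z v = 0 := by
  unfold cb
  rw [List.takeWhile_cons_of_neg (by simp)]
  rfl

theorem cb_filter {P : ℕ → Bool} {z v : ℕ} (hz : P z = true) (hv : P v = true) (L : List ℕ) :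
    cb (L.filter P) z v = cb L z v := by
  induction L with
  | nil => rfl
  | cons a L ih =>
    by_cases hav : a = v
    · subst hav
      rw [List.filter_cons_of_pos hv, cb_cons_eq, cb_cons_eq]
    · rw [cb_cons_ne L hav]
      by_cases ha : P a = true
      · rw [List.filter_cons_of_pos ha, cb_cons_ne _ hav, ih]
      · rw [List.filter_cons_of_neg ha, ih]
        have : a ≠ z := fun e => ha (e ▸ hz)
        rw [if_neg this, Nat.zero_add]

theorem cb_zr {z v : ℕ} (h : z ≠ v) (i : ℕ) (L : List ℕ) : cb (Zr z i ++ L) z v = i + cb L z v := by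
  induction i with
  | zero => rw [Nat.zero_add]; rfl
  | succ i ih =>
    have e : Zr z (i + 1) ++ L = z :: (Zr z i ++ L) := rfl
    rw [e, cb_cons_ne _ h, ih, if_pos rfl]
    omega

/-- the first letter `0` or `3` -/
theorem shp {z : ℕ} {v : ℕ} {r : List ℕ} : ∀ L : List ℕ, (∀ a ∈ L, a = 0 ∨ a = 3 ∨ a = z) →
    fxy L = v :: r → ∃ i L', L = Zr z i ++ v :: L' ∧ (∀ a ∈ L', a = 0 ∨ a = 3 ∨ a = z) ∧ fxy L' = r := by
  intro L
  induction L with
  | nil => intro _ h; simp [fxy] at h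
  | cons a L ih =>
    intro hL h
    by_cases ha : a = 0 ∨ a = 3
    · unfold fxy at h
      rw [List.filter_cons_of_pos (by simpa using ha)] at h
      simp only [List.cons.injEq] at h
      exact ⟨0, L, by rw [h.1]; rfl, fun b hb => hL b (List.mem_cons_of_mem _ hb), h.2⟩
    · unfold fxy at h
      rw [List.filter_cons_of_neg (by simpa using ha)] at h
      have hz : a = z := by
        rcases hL a List.mem_cons_self with h1 | h1 | h1
        · exact absurd (Or.inl h1) ha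
        · exact absurd (Or.inr h1) ha
        · exact h1
      obtain ⟨i, L', h1, h2, h3⟩ := ih (fun b hb => hL b (List.mem_cons_of_mem _ hb)) h
      exact ⟨i + 1, L', by rw [h1, hz]; rfl, h2, h3⟩

theorem shp0 {z : ℕ} (L : List ℕ) (hL : ∀ a ∈ L, a = 0 ∨ a = 3 ∨ a = z) (h : fxy L = []) :
    ∃ i, L = Zr z i := by
  refine ⟨L.length, List.eq_replicate_of_mem ?_⟩
  intro a ha
  unfold fxy at h
  rw [List.filter_eq_nil_iff] at h
  have h1 := h a ha
  rcases hL a ha with h2 | h2 | h2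
  · exact absurd (by simp [h2]) h1
  · exact absurd (by simp [h2]) h1
  · exact h2

theorem cnt2 : ∀ L : List ℕ, (∀ a ∈ L, a = 0 ∨ a = 3) → L.count 0 + L.count 3 = L.length := by
  intro L
  induction L with
  | nil => intro _; rfl
  | cons a L ih =>
    intro h
    have h1 := ih (fun b hb => h b (List.mem_cons_of_mem _ hb))
    rcases h a List.mem_cons_self with h2 | h2
    · subst h2
      rw [List.count_cons_self, List.count_cons_of_ne (by decide), List.length_cons]
      omega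
    · subst h2
      rw [List.count_cons_self, List.count_cons_of_ne (by decide), List.length_cons]
      omega

theorem xx_of {L : List ℕ} (h0 : L.count 0 = 1) (h3 : L.count 3 = 1) : XX (fxy L) := by
  have hm : ∀ a ∈ fxy L, a = 0 ∨ a = 3 := by
    intro a ha
    have := List.of_mem_filter ha
    simpa using this
  have c0 : (fxy L).count 0 = 1 := by
    rw [← h0]
    exact List.count_filter (by simp)
  have c3 : (fxy L).count 3 = 1 := by
    rw [← h3]
    exact List.count_filter (by simp)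
  have hl := cnt2 _ hm
  rw [c0, c3] at hl
  obtain ⟨a, b, hab⟩ := List.length_eq_two.1 hl.symm
  rw [hab] at hm c0 c3 ⊢
  have ha := hm a (by simp)
  have hb := hm b (by simp)
  unfold XX
  rcases ha with ha | ha <;> rcases hb with hb | hb <;> subst ha hb
  · simp at c0
  · left; rfl
  · right; rfl
  · simp at c3

/-- the word with the block `z^a v1 z^b v2 z^c` -/
def Wz (z v1 v2 : ℕ) (p S : List ℕ) (a b c : ℕ) : List ℕ :=
  p ++ (Zr z a ++ v1 :: (Zr z b ++ v2 :: (Zr z c ++ S)))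

theorem zr_add (z i j : ℕ) : Zr z (i + j) = Zr z i ++ Zr z j := List.replicate_add ..

/-- insertion of `z^n` in the middle -/
theorem insM {n : ℕ} {β : FIC} (H : Hz n β) {z v1 v2 : ℕ} {p S : List ℕ} (h1 : v1 ∈ S)
    (h2 : v2 ∈ S) {a c : ℕ} (ha : 1 ≤ a) (hc : 1 ≤ c) (b : ℕ) :
    RR β (Wz z v1 v2 p S a b c) (Wz z v1 v2 p S a (b + n) c) := by
  obtain ⟨a, rfl⟩ : ∃ a', a = a' + 1 := ⟨a - 1, by omega⟩
  obtain ⟨c, rfl⟩ : ∃ c', c = 1 + c' := ⟨c - 1, by omega⟩
  have h := H.it (p ++ Zr z a) (v1 :: Zr z b) [v2] (Zr z c ++ S) z ?_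
  · have e1 : p ++ Zr z a ++ z :: (v1 :: Zr z b ++ ([v2] ++ z :: (Zr z c ++ S))) =
        Wz z v1 v2 p S (a + 1) b (1 + c) := by
      unfold Wz
      rw [zr_add z a 1, zr_add z 1 c]
      simp only [List.append_assoc, List.cons_append, List.nil_append, List.replicate_one]
    have e2 : p ++ Zr z a ++ z :: (v1 :: Zr z b ++ (List.replicate n z ++ ([v2] ++
        z :: (Zr z c ++ S)))) = Wz z v1 v2 p S (a + 1) (b + n) (1 + c) := by
      unfold Wz
      rw [zr_add z a 1, zr_add z 1 c, zr_add z b n]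
      simp only [List.append_assoc, List.cons_append, List.nil_append, List.replicate_one]
    rw [e1, e2] at h
    exact h
  · have k1 : 1 ≤ S.count v1 := List.one_le_count_iff.2 h1
    have k2 : 1 ≤ S.count v2 := List.one_le_count_iff.2 h2
    intro d hd
    simp only [List.cons_append, List.mem_cons, List.mem_append, List.not_mem_nil, or_false] at hd
    simp only [List.count_append, List.count_cons, List.count_nil, beq_iff_eq]
    rcases hd with rfl | hd | rfl
    · rw [if_pos rfl]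
      split_ifs <;> omega
    · have := List.eq_of_mem_replicate hd
      subst this
      rw [if_pos rfl]
      split_ifs <;> omega
    · rw [if_pos rfl]
      split_ifs <;> omega

/-- the crossing of the first token -/
theorem cr1 {n : ℕ} {β : FIC} (hC : CroStmt) {z v1 v2 : ℕ} {p S : List ℕ} (h1 : v1 ∈ S)
    {a b c a' b' : ℕ} (hq : Lq n β a a') (ha : 1 ≤ a) (hb : 1 ≤ b) (ha' : 1 ≤ a') (hb' : 1 ≤ b')
    (hm : a + b ≡ a' + b' [MOD n]) :
    RR β (Wz z v1 v2 p S a b c) (Wz z v1 v2 p S a' b' c) := by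
  obtain ⟨S1, S2, rfl⟩ := List.append_of_mem h1
  have h := hC n β a a' hq p (v2 :: (Zr z c ++ S1)) S2 z v1 a a' b b' rfl rfl hm ha ha' hb hb'
  unfold Wz
  simpa only [List.append_assoc, List.cons_append] using h

/-- the crossing of the second token -/
theorem cr2 {n : ℕ} {β : FIC} (hC : CroStmt) {z v1 v2 : ℕ} {p S : List ℕ} (h1 : v2 ∈ S)
    {a b c b' c' : ℕ} (hq : Lq n β b b') (hb : 1 ≤ b) (hc : 1 ≤ c) (hb' : 1 ≤ b') (hc' : 1 ≤ c')
    (hm : b + c ≡ b' + c' [MOD n]) :
    RR β (Wz z v1 v2 p S a b c) (Wz z v1 v2 p S a b' c') := by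
  obtain ⟨S1, S2, rfl⟩ := List.append_of_mem h1
  have h := hC n β b b' hq (p ++ (Zr z a ++ [v1])) S1 S2 z v2 b b' c c' rfl rfl hm hb hb' hc hc'
  unfold Wz
  simpa only [List.append_assoc, List.cons_append, List.nil_append] using h

/-- the normal forms are equivalent -/
theorem core {n : ℕ} {β : FIC} (H : Hz n β) (hC : CroStmt) (hQ : LqrStmt) {z v1 v2 : ℕ}
    {p S : List ℕ} (h1 : v1 ∈ S) (h2 : v2 ∈ S) {i0 i1 i2 j0 j1 j2 : ℕ} (a0 : 1 ≤ i0) (a2 : 1 ≤ i2)
    (b0 : 1 ≤ j0) (b2 : 1 ≤ j2) (q1 : Lq n β i0 j0) (q2 : Lq n β (i0 + i1) (j0 + j1))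
    (ht : i0 + i1 + i2 ≡ j0 + j1 + j2 [MOD n]) :
    RR β (Wz z v1 v2 p S i0 i1 i2) (Wz z v1 v2 p S j0 j1 j2) := by
  have hn := H.n2
  obtain ⟨_, _, _, L4, L5⟩ := hQ n β H
  obtain ⟨m, rfl⟩ : ∃ m, n = m + 1 := ⟨n - 1, by omega⟩
  have hm : 1 ≤ m := by omega
  have key : ∀ a : ℕ, a + (m + 1) * j0 ≡ a [MOD (m + 1)] := fun a =>
    ((Nat.modEq_iff_dvd' (by omega)).2 ⟨j0, by omega⟩).symm
  have e1 : j0 + (i0 + i1 + m * j0) = i0 + i1 + (m + 1) * j0 := by ring
  have s1 := insM H (z := z) (p := p) h1 h2 a0 a2 i1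
  have s2 : RR β (Wz z v1 v2 p S i0 (i1 + (m + 1)) i2) (Wz z v1 v2 p S j0 (i0 + i1 + m * j0) i2) := by
    apply cr1 hC h1 q1 a0 (by omega) b0 (by omega)
    rw [e1]
    refine Nat.ModEq.trans ?_ (key (i0 + i1)).symm
    exact ((Nat.modEq_iff_dvd' (by omega)).2 ⟨1, by omega⟩).symm
  have l1 : Lq (m + 1) β (i0 + i1 + m * j0) (j1 + (m + 1)) := by
    have l2 : Lq (m + 1) β (i0 + i1 + m * j0 + j0) (j1 + j0) := by
      refine L4 _ _ _ _ ?_ ?_ q2
      · rw [Nat.add_comm (i0 + i1 + m * j0) j0, e1]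
        exact (key _).symm
      · rw [Nat.add_comm j0 j1]
    have l3 := (L5 _ _ _).2 l2
    refine L4 _ _ _ _ rfl ?_ l3
    exact (Nat.modEq_iff_dvd' (by omega)).2 ⟨1, by omega⟩
  have s3 : RR β (Wz z v1 v2 p S j0 (i0 + i1 + m * j0) i2) (Wz z v1 v2 p S j0 (j1 + (m + 1)) j2) := by
    apply cr2 hC h2 l1 (by omega) a2 (by omega) b2
    have t1 : i0 + i1 + m * j0 + i2 = i0 + i1 + i2 + m * j0 := by ring
    have t2 : j0 + j1 + j2 + m * j0 = j1 + j2 + (m + 1) * j0 := by ring
    rw [t1]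
    refine Nat.ModEq.trans (Nat.ModEq.add_right _ ht) ?_
    rw [t2]
    refine Nat.ModEq.trans (key _) ?_
    exact (Nat.modEq_iff_dvd' (by omega)).2 ⟨1, by omega⟩
  have s4 := insM H (z := z) (p := p) h1 h2 b0 b2 j1
  exact tr s1 (tr s2 (tr s3 s4.symm))

theorem bw_app (A C : List ℕ) (B : ℕ → List ℕ) : Bw (A ++ C) B = Bw A B ++ Bw C B := by
  unfold Bw
  exact List.flatMap_append

theorem bw_cons (r : ℕ) (C : List ℕ) (B : ℕ → List ℕ) :
    Bw (r :: C) B = B r ++ (3 * r + 2) :: Bw C B := by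
  unfold Bw
  rw [List.flatMap_cons, List.append_assoc]
  rfl

theorem bw_up (A : List ℕ) (B : ℕ → List ℕ) (D : List ℕ) (h : 0 ∉ A) : Bw A (up B 0 D) = Bw A B := by
  unfold Bw
  apply List.flatMap_congr
  intro r hr
  have : r ≠ 0 := fun e => h (e ▸ hr)
  unfold up
  rw [if_neg this]

/-- the filter of a list and its complement -/
theorem two_f (z : ℕ) (L F : List ℕ) (hF : F.Perm (L.filter (fun a => !(pp z a)))) :
    (L.filter (pp z) ++ F).Perm L :=
  (List.Perm.append_left _ hF).trans (List.filter_append_perm _ _)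

theorem f_two (z : ℕ) (L F : List ℕ) (hF : ∀ a ∈ F, pp z a = false) :
    (L.filter (pp z) ++ F).filter (pp z) = L.filter (pp z) := by
  rw [List.filter_append, List.filter_filter]
  have h1 : F.filter (pp z) = [] := by
    rw [List.filter_eq_nil_iff]
    intro a ha
    rw [hF a ha]
    simp
  rw [h1, List.append_nil]
  congr 1
  funext a
  simp

theorem bln (_ : PwlStmt) (_ : FilStmt) (hC : CroStmt) (hQ : LqrStmt) (hU : UpzStmt)
    (hP : PmzStmt) : BlnStmt := by
  intro n β m R c B e H hc hR hb hB D hD hx hp hl ht k1 k2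
  have hz0 : (3 * m + 1) ≠ 0 := by omega
  have hz3 : (3 * m + 1) ≠ 3 := by omega
  set z := 3 * m + 1 with hz
  have hnd : R.Nodup := (hR.nodup_iff).2 List.nodup_range
  obtain ⟨R1, R2, R3, rfl⟩ := hb
  have n1 : 0 ∉ R1 := by
    intro h
    have := List.nodup_append.1 hnd
    exact this.2.2 0 h 0 (by simp) rfl
  have n2 : 0 ∉ R2 ++ 1 :: R3 := by
    have := (List.nodup_append.1 hnd).2.1
    exact (List.nodup_cons.1 this).1
  have hD2 : 2 ≤ D.count z := by
    have := k2 0 (Or.inl rfl)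
    omega
  have hBf := ((hU m _ c B e hR).2.2 D hD hp hD2).2 hB
  -- the local letters
  let F := (B 0).filter (fun a => !(pp z a))
  have hF : ∀ a ∈ F, pp z a = false := by
    intro a ha
    have := List.of_mem_filter ha
    simpa using this
  have hFD : F.Perm (D.filter (fun a => !(pp z a))) := by
    have h1 := (hp.filter (fun a => !(pp z a))).symm
    have h2 : ∀ L : List ℕ, (dz z L).filter (fun a => !(pp z a)) =
        L.filter (fun a => !(pp z a)) := by
      intro L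
      unfold dz
      rw [List.filter_filter]
      congr 1
      funext a
      unfold pp
      by_cases h3 : a = z <;> simp [h3]
    rw [h2, h2] at h1
    exact h1
  have r1 := hP n β m _ c B e H hc hR ⟨R1, R2, R3, rfl⟩ hB ((B 0).filter (pp z) ++ F)
    (two_f z (B 0) F (List.Perm.refl _)) (f_two z (B 0) F hF)
  have r2 := hP n β m _ c (up B 0 D) e H hc hR ⟨R1, R2, R3, rfl⟩ hBf (D.filter (pp z) ++ F)
    (two_f z D F hFD) (f_two z D F hF)
  have hup : up (up B 0 D) 0 (D.filter (pp z) ++ F) = up B 0 (D.filter (pp z) ++ F) := by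
    funext q
    unfold up
    split_ifs <;> rfl
  rw [hup] at r2
  refine tr r1 (tr ?_ r2.symm)
  -- the shape
  have ew : ∀ L : List ℕ, Bw (R1 ++ 0 :: (R2 ++ 1 :: R3)) (up B 0 (L ++ F)) ++ e =
      Bw R1 B ++ (L ++ (F ++ 2 :: (Bw (R2 ++ 1 :: R3) B ++ e))) := by
    intro L
    rw [bw_app, bw_cons, bw_up _ _ _ n1, bw_up _ _ _ n2]
    unfold up
    rw [if_pos rfl]
    simp only [List.append_assoc, List.cons_append]
  rw [ew, ew]
  have hX := xx_of hB.x0 hB.y0
  have hfz : ∀ L : List ℕ, fxy (L.filter (pp z)) = fxy L := by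
    intro L
    unfold fxy
    rw [List.filter_filter]
    congr 1
    funext a
    unfold pp
    by_cases h3 : a = 0
    · simp [h3]
    · by_cases h4 : a = 3
      · simp [h4]
      · simp [h3, h4]
  have hlt : ∀ L : List ℕ, ∀ a ∈ L.filter (pp z), a = 0 ∨ a = 3 ∨ a = z := by
    intro L a ha
    have := List.of_mem_filter ha
    unfold pp at this
    simpa using this
  have hmem : ∀ v, v = 0 ∨ v = 3 → v ∈ F ++ 2 :: (Bw (R2 ++ 1 :: R3) B ++ e) := by
    intro v hv
    have h1 : v ∈ B 1 := by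
      rcases hv with rfl | rfl
      · exact List.one_le_count_iff.1 (by rw [hB.x1])
      · exact List.one_le_count_iff.1 (by rw [hB.y1])
    rw [bw_app, bw_cons]
    simp [h1]
  have hcz : ∀ L : List ℕ, (L.filter (pp z)).count z = L.count z := by
    intro L
    exact List.count_filter (by simp [pp])
  have hcb : ∀ L : List ℕ, ∀ v, v = 0 ∨ v = 3 → cb (L.filter (pp z)) z v = cb L z v := by
    intro L v hv
    apply cb_filter (by simp [pp])
    rcases hv with rfl | rfl <;> simp [pp]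
  obtain ⟨v1, v2, hv1, hv2, h12, hxy⟩ : ∃ v1 v2, (v1 = 0 ∨ v1 = 3) ∧ (v2 = 0 ∨ v2 = 3) ∧ v1 ≠ v2 ∧
      fxy (B 0) = [v1, v2] := by
    rcases hX with h | h
    · exact ⟨0, 3, Or.inl rfl, Or.inr rfl, by decide, h⟩
    · exact ⟨3, 0, Or.inr rfl, Or.inl rfl, by decide, h⟩
  have zv1 : z ≠ v1 := by rcases hv1 with h | h <;> rw [h] <;> assumption
  have zv2 : z ≠ v2 := by rcases hv2 with h | h <;> rw [h] <;> assumption
  have nf : ∀ L : List ℕ, fxy L = [v1, v2] → ∃ i0 i1 i2,
      L.filter (pp z) = Zr z i0 ++ v1 :: (Zr z i1 ++ v2 :: Zr z i2) ∧ cb L z v1 = i0 ∧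
        cb L z v2 = i0 + i1 ∧ L.count z = i0 + i1 + i2 := by
    intro L hL
    obtain ⟨i0, L1, a1, a2, a3⟩ := shp _ (hlt L) ((hfz L).trans hL)
    obtain ⟨i1, L2, b1, b2, b3⟩ := shp _ a2 a3
    obtain ⟨i2, c1⟩ := shp0 _ b2 b3
    refine ⟨i0, i1, i2, by rw [a1, b1, c1], ?_, ?_, ?_⟩
    · rw [← hcb L v1 hv1, a1, cb_zr zv1, cb_cons_eq]
      omega
    · rw [← hcb L v2 hv2, a1, b1, cb_zr zv2, cb_cons_ne _ h12, if_neg zv1.symm, cb_zr zv2,
        cb_cons_eq]
      omega
    · rw [← hcz L, a1, b1, c1, List.count_append, List.count_cons_of_ne zv1.symm,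
        List.count_append, List.count_cons_of_ne zv2.symm, List.count_replicate_self,
        List.count_replicate_self, List.count_replicate_self]
      omega
  obtain ⟨i0, i1, i2, a1, a2, a3, a4⟩ := nf (B 0) hxy
  obtain ⟨j0, j1, j2, b1, b2, b3, b4⟩ := nf D (hx.trans hxy)
  rw [a1, b1]
  have t1 := k1 v1 hv1
  have t2 := k1 v2 hv2
  have t3 := k2 v1 hv1
  have t4 := k2 v2 hv2
  have q1 := hl v1 hv1
  have q2 := hl v2 hv2
  rw [a2] at t1 q1
  rw [a3, a4] at t2
  rw [b2] at t3 q1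
  rw [b3, b4] at t4
  rw [a3, b3] at q2
  rw [a4, b4] at ht
  have hfin := core H hC hQ (z := z) (p := Bw R1 B) (hmem v1 hv1) (hmem v2 hv2) t1.1
    (show 1 ≤ i2 by omega) t3.1 (show 1 ≤ j2 by omega) q1 q2 ht
  unfold Wz at hfin
  simpa only [List.append_assoc, List.cons_append] using hfin

end Pool.Agent.MWFE.H85
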