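import Pool.Agent.MWFE.StmtsC
import Pool.Agent.Helper10_MWE.FCE
import Pool.Agent.Helper11_MWD.FIN3

/-!
# Squad MWFE, row CLB (second version)
-/

set_option autoImplicit false

namespace Pool.Agent.MWFE.H85

open Pool.Agent.Helper14_MV Pool.Agent.Helper2_MV Pool.Agent.MVD
open Pool.Agent.MWE (Can XX fxy dxy dx dy up cp L4 pr Xs xl isx Fs nd nr)
open Pool.Agent.MWGR (cb)

namespace CLB

theorem up_self (B : ℕ → List ℕ) (r : ℕ) (D : List ℕ) : up B r D r = D := by
  simp [up]

theorem up_ne (B : ℕ → List ℕ) {r q : ℕ} (D : List ℕ) (h : q ≠ r) : up B r D q = B q := by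
  simp [up, h]

theorem bw_congr (R : List ℕ) (B B' : ℕ → List ℕ) (h : ∀ r ∈ R, B r = B' r) :
    Bw R B = Bw R B' := by
  induction R with
  | nil => rfl
  | cons a R ih =>
    have h1 := ih (fun r hr => h r (List.mem_cons_of_mem _ hr))
    unfold Bw at h1 ⊢
    rw [List.flatMap_cons, List.flatMap_cons, h1, h a List.mem_cons_self]

theorem bw_append (R1 R2 : List ℕ) (B : ℕ → List ℕ) : Bw (R1 ++ R2) B = Bw R1 B ++ Bw R2 B := by
  unfold Bw
  rw [List.flatMap_append]

theorem bw_cons (r : ℕ) (R : List ℕ) (B : ℕ → List ℕ) :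
    Bw (r :: R) B = B r ++ ((3 * r + 2) :: Bw R B) := by
  unfold Bw
  rw [List.flatMap_cons, List.append_assoc]
  rfl

theorem bw_up {R1 R2 : List ℕ} {r : ℕ} (B : ℕ → List ℕ) (D : List ℕ)
    (h : (R1 ++ r :: R2).Nodup) :
    Bw (R1 ++ r :: R2) (up B r D) = Bw R1 B ++ (D ++ (3 * r + 2) :: Bw R2 B) := by
  have h1 : r ∉ R1 ∧ r ∉ R2 := by
    rw [List.nodup_append] at h
    refine ⟨fun hc => h.2.2 r hc r List.mem_cons_self rfl, ?_⟩
    exact (List.nodup_cons.1 h.2.1).1
  rw [bw_append, bw_cons, up_self,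
    bw_congr R1 (up B r D) B (fun q hq => up_ne B D (fun hc => h1.1 (hc ▸ hq))),
    bw_congr R2 (up B r D) B (fun q hq => up_ne B D (fun hc => h1.2 (hc ▸ hq)))]

theorem sfr_up {B : ℕ → List ℕ} (hB : ∀ r, SFr (B r)) {D : List ℕ} (hD : SFr D) (r0 : ℕ) :
    ∀ r, SFr (up B r0 D r) := by
  intro r
  unfold up
  split_ifs
  · exact hD
  · exact hB r

theorem pz_congr {n z : ℕ} {R : List ℕ} {B B' : ℕ → List ℕ} (h : ∀ r ∈ R, B r = B' r) :
    Bw R (pz n z B) = Bw R (pz n z B') := by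
  apply bw_congr
  intro r hr
  unfold pz up
  by_cases h0 : r = 0
  · rw [if_pos h0, if_pos h0, ← h0, h r hr]
  · rw [if_neg h0, if_neg h0, h r hr]

end CLB

open CLB in
/-- row CLB -/
theorem clb (h0 : Cl0Stmt) (h1 : Cl1Stmt) (h2 : ClpStmt) : ClbStmt := by
  intro n β m R c X B B' e e' hS hX sB se sB' se' hr P1 Y Y' P2 Q1 Λ Q2 hw hw' hP2 sY sΛ hYY hQ
  have hnd : R.Nodup := hS.pR.nodup_iff.2 List.nodup_range
  by_cases hY0 : Y = []
  · subst hY0
    have e1 : Y' = [] := List.Perm.eq_nil hYY.symm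
    subst e1
    obtain ⟨u1, u2⟩ := Pool.Agent.MWD.H11.uniF R B B' e e' hnd (fun r _ => sB r)
      (fun r _ => sB' r) se se' (hw.trans hw'.symm)
    refine ⟨X, hX, ?_⟩
    rw [← pz_congr u1, ← u2]
    exact hr
  have sY' : SFr Y' := fun a ha => sY a (hYY.mem_iff.2 ha)
  rcases Pool.Agent.MWE.H10.fce R B e P1 Y P2 (fun r _ => sB r) sY hY0 hw with
    ⟨R1, rY, R2, a, c', hR, hBr, hP1, hP2'⟩ | ⟨a, c', he, hP1, hP2'⟩
  swap
  · -- `Y` in the tail
    have sac : SFr (a ++ (Y' ++ c')) := by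
      intro v hv
      simp only [List.mem_append] at hv
      rcases hv with hv | hv | hv
      · exact se v (by rw [he]; simp [hv])
      · exact sY' v hv
      · exact se v (by rw [he]; simp [hv])
    have e2 : Bw R B' ++ e' = Bw R B ++ (a ++ (Y' ++ c')) := by
      rw [hw', hP1, hP2', List.append_assoc]
    obtain ⟨u1, u2⟩ := Pool.Agent.MWD.H11.uniF R B' B e' _ hnd (fun r _ => sB' r)
      (fun r _ => sB r) se' sac e2
    refine ⟨X, hX, ?_⟩
    rw [pz_congr u1, u2]
    exact (h2 n β m R c X B e hS hX sB se hr).2 a Y Y' c' he hYY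
  -- `Y` in block `rY`
  have hnew : P1 ++ (Y' ++ P2) = Bw R (up B rY (a ++ (Y' ++ c'))) ++ e := by
    rw [hP1, hP2', hR, bw_up B _ (hR ▸ hnd)]
    simp only [List.append_assoc, List.cons_append]
  have hrR : rY ∈ R := by
    rw [hR]
    simp
  have sac : SFr (a ++ (Y' ++ c')) := by
    intro v hv
    simp only [List.mem_append] at hv
    rcases hv with hv | hv | hv
    · exact sB rY v (by rw [hBr]; simp [hv])
    · exact sY' v hv
    · exact sB rY v (by rw [hBr]; simp [hv])
  obtain ⟨u1, u2⟩ := Pool.Agent.MWD.H11.uniF R B' (up B rY (a ++ (Y' ++ c'))) e' e hnd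
    (fun r _ => sB' r) (fun r _ => sfr_up sB sac rY r) se' se (hw'.trans hnew)
  have hRt : Rt R B e rY c' Λ := by
    by_cases hΛ0 : Λ = []
    · left
      exact ⟨c', [], by rw [hΛ0]; simp⟩
    have hn2 : (rY :: R2).Nodup := by
      have := hR ▸ hnd
      exact (List.nodup_append.1 this).2.1
    have hE : Bw (rY :: R2) (up B rY c') ++ e = Q1 ++ (Λ ++ Q2) := by
      rw [← hP2, hP2']
      have h3 := bw_up (R1 := []) B c' (by simpa using hn2)
      simp only [List.nil_append] at h3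
      rw [h3]
      simp [Bw]
    have sc' : SFr c' := by
      intro v hv
      exact sB rY v (by rw [hBr]; simp [hv])
    rcases Pool.Agent.MWE.H10.fce (rY :: R2) (up B rY c') e Q1 Λ Q2
      (fun r _ => sfr_up sB sc' rY r) sΛ hΛ0 hE with
      ⟨R1', r', R2', a', c'', hR', hBr', -, -⟩ | ⟨a', c'', he', -, -⟩
    · by_cases h3 : r' = rY
      · subst h3
        rw [up_self] at hBr'
        left
        exact ⟨a', c'', hBr'⟩
      · rw [up_ne B c' h3] at hBr'
        right
        left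
        rcases R1' with _ | ⟨q, R1'⟩
        · exfalso
          simp only [List.nil_append, List.cons.injEq] at hR'
          exact h3 hR'.1.symm
        · simp only [List.cons_append, List.cons.injEq] at hR'
          refine ⟨r', ?_, ?_, a', c'', hBr'⟩
          · rw [hR, hR'.2]
            simp
          · exact ⟨R1, R1', R2', by rw [hR, hR'.2]⟩
    · right
      right
      exact ⟨a', c'', he'⟩
  by_cases hr0 : rY = 0
  · subst hr0
    obtain ⟨X', hX', h3⟩ := h0 n β m R c X B e hS hX sB se hr a Y Y' c' Λ hBr hYY hQ hRt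
    refine ⟨X', hX', ?_⟩
    rw [pz_congr u1, u2]
    exact h3
  · by_cases hr1 : rY = 1
    · subst hr1
      have h3 := h1 n β m R c X B e hS hX sB se hr a Y Y' c' Λ hBr hYY hQ hRt
      refine ⟨X, hX, ?_⟩
      rw [pz_congr u1, u2]
      exact h3
    · have h3 := (h2 n β m R c X B e hS hX sB se hr).1 rY hrR hr0 hr1 a Y Y' c' Λ hBr hYY hQ hRt
      refine ⟨X, hX, ?_⟩
      rw [pz_congr u1, u2]
      exact h3

end Pool.Agent.MWFE.H85
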