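import Pool.Agent.MWFE.StmtsA

/-!
# Squad MWFE, rows LQI and LQR (second versions)
-/

set_option autoImplicit false

namespace Pool.Agent.MWFE.H85

open Pool.Agent.Helper14_MV Pool.Agent.Helper2_MV Pool.Agent.MVD
open Pool.Agent.MWE (Can XX fxy dxy dx dy up cp L4 pr Xs xl isx Fs nd nr)
open Pool.Agent.MWGR (cb)

theorem tr' {β : FIC} {u v w : List ℕ} (h : RR β u v) (h' : RR β v w) : RR β u w := β.trans h h'

theorem fill {n : ℕ} {β : FIC} (hF : FilStmt) (H : Hz n β) {i k i' k' : ℕ} (h1 : i ≡ i' [MOD n])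
    (h2 : k ≡ k' [MOD n]) (a : 1 ≤ i) (b : 1 ≤ k) (c : 1 ≤ i') (d : 1 ≤ k') :
    RR β (cw i k) (cw i' k') := by
  have h := hF n β H [] [2, 3] 0 3 i k i' k' (by decide) h1 h2 a b c d (by decide)
  unfold cw
  simpa only [List.nil_append] using h

theorem cw_left {β : FIC} {i k j l : ℕ} (c : ℕ) (h : RR β (cw i k) (cw j l)) :
    RR β (cw (c + i) k) (cw (c + j) l) := by
  have h1 := (RR.refl (List.replicate c 0)).append h
  unfold cw at h1 ⊢
  rw [List.replicate_add, List.replicate_add, List.append_assoc, List.append_assoc]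
  exact h1

theorem cw_sub {g : ℕ → List ℕ} {i k : ℕ} (h : g 0 = [0]) :
    (cw i k).flatMap g = List.replicate i 0 ++ (g 3 ++ (List.replicate k 0 ++ (g 2 ++ g 3))) := by
  have hz : ∀ i : ℕ, (List.replicate i 0).flatMap g = List.replicate i 0 := by
    intro i
    induction i with
    | zero => rfl
    | succ i ih =>
      rw [List.replicate_succ, List.flatMap_cons, ih, h]
      rfl
  unfold cw
  rw [List.flatMap_append, List.flatMap_cons, List.flatMap_append, hz, hz, List.flatMap_cons,
    List.flatMap_cons, List.flatMap_nil, List.append_nil]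

theorem n_mod {n : ℕ} (a b : ℕ) : a + n * b ≡ a [MOD n] :=
  ((Nat.modEq_iff_dvd' (by omega)).2 ⟨b, by omega⟩).symm

theorem lqr (hF : FilStmt) : LqrStmt := by
  intro n β H
  have hn := H.n2
  have p1 : ∀ i, Lq n β i i := by
    intro i i' j' k l h1 h2 h3 a b c d
    refine fill hF H (h1.trans h2.symm) ?_ a c b d
    exact Nat.ModEq.add_left_cancel (h1.trans h2.symm) h3
  have p4 : ∀ i j i' j', i ≡ i' [MOD n] → j ≡ j' [MOD n] → Lq n β i j → Lq n β i' j' := by
    intro i j i' j' h1 h2 h a b k l e1 e2 e3 q1 q2 q3 q4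
    exact h a b k l (e1.trans h1.symm) (e2.trans h2.symm) e3 q1 q2 q3 q4
  have p5 : ∀ i j c, Lq n β i j → Lq n β (i + c) (j + c) := by
    intro i j c h i' j' k l e1 e2 e3 q1 q2 q3 q4
    have m1 : i + n + k ≡ j + n + l [MOD n] := by
      have m2 : i + c + k ≡ j + c + l [MOD n] :=
        (Nat.ModEq.add_right k e1.symm).trans (e3.trans (Nat.ModEq.add_right l e2))
      have m3 : c + (i + k) ≡ c + (j + l) [MOD n] := by
        rw [show c + (i + k) = i + c + k by omega, show c + (j + l) = j + c + l by omega]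
        exact m2
      have m4 := Nat.ModEq.add_left_cancel' c m3
      have m5 := Nat.ModEq.add_left n m4
      rw [show i + n + k = n + (i + k) by omega, show j + n + l = n + (j + l) by omega]
      exact m5
    have h1 := h (i + n) (j + n) k l (by simp) (by simp) m1 (by omega) (by omega) q3 q4
    have h2 := cw_left c h1
    have e1' : i' ≡ c + (i + n) [MOD n] := by
      rw [show c + (i + n) = i + c + n * 1 by omega]
      exact e1.trans (n_mod _ _).symm
    have e2' : c + (j + n) ≡ j' [MOD n] := by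
      rw [show c + (j + n) = j + c + n * 1 by omega]
      exact (n_mod _ _).trans e2.symm
    exact tr' (fill hF H e1' rfl q1 q3 (by omega) q3)
      (tr' h2 (fill hF H e2' rfl (by omega) q4 q2 q4))
  refine ⟨p1, ?_, ?_, p4, ?_⟩
  · intro i j h i' j' k l e1 e2 e3 q1 q2 q3 q4
    exact (h j' i' l k e2 e1 e3.symm q2 q1 q4 q3).symm
  · intro i j k h h' i' k' a b e1 e2 e3 q1 q2 q3 q4
    have m1 : i' + a ≡ j + n + (i' + a + (n - 1) * (j + n)) [MOD n] := by
      obtain ⟨m, rfl⟩ : ∃ m, n = m + 1 := ⟨n - 1, by omega⟩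
      rw [Nat.add_sub_cancel]
      have e : j + (m + 1) + (i' + a + m * (j + (m + 1))) = i' + a + (m + 1) * (j + (m + 1)) := by
        ring
      rw [e]
      exact (n_mod _ _).symm
    have h1 := h i' (j + n) a (i' + a + (n - 1) * (j + n)) e1 (by simp) m1 q1 (by omega) q3
      (by omega)
    have h2 := h' (j + n) k' (i' + a + (n - 1) * (j + n)) b (by simp) e2 (m1.symm.trans e3)
      (by omega) q2 (by omega) q4
    exact tr' h1 h2
  · intro i j c
    refine ⟨p5 i j c, ?_⟩
    intro h
    have h1 := p5 _ _ ((n - 1) * c) h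
    obtain ⟨m, rfl⟩ : ∃ m, n = m + 1 := ⟨n - 1, by omega⟩
    rw [Nat.add_sub_cancel] at h1
    refine p4 _ _ _ _ ?_ ?_ h1
    · rw [show i + c + m * c = i + (m + 1) * c by ring]
      exact n_mod _ _
    · rw [show j + c + m * c = j + (m + 1) * c by ring]
      exact n_mod _ _

theorem lqi (_ : PwlStmt) (hF : FilStmt) : LqiStmt := by
  intro n β H i k j l h2 h2' h
  have hn := H.n2
  have t1 : RR β (List.replicate (i + k) 0) (List.replicate (j + l) 0) := by
    have h1 := RR.sub (fun c => if c = 0 then [0] else []) h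
    rw [cw_sub (by rfl), cw_sub (by rfl)] at h1
    rw [List.replicate_add, List.replicate_add]
    simpa using h1
  have t2 := H.ex _ _ h2 h2' t1
  intro i' j' k' l' e1 e2 e3 q1 q2 q3 q4
  have h3 : RR β (cw (n + i) (k + (n + ((n - 1) * k + k')))) (cw (n + j)
      (l + (n + ((n - 1) * k + k')))) := by
    have h4 := cw_left n (RR.sub (fun c => if c = 2 then
      List.replicate (n + ((n - 1) * k + k')) 0 ++ [2] else [c]) h |> fun h5 => by
        rw [cw_sub (by rfl), cw_sub (by rfl)] at h5
        exact (show RR β (cw i (k + (n + ((n - 1) * k + k')))) (cw j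
          (l + (n + ((n - 1) * k + k')))) by
          unfold cw
          rw [List.replicate_add k, List.replicate_add l]
          simp at h5
          simpa only [List.append_assoc, List.cons_append] using h5))
    exact h4
  have a1 : i' ≡ n + i [MOD n] := by
    rw [show n + i = i + n * 1 by omega]
    exact e1.trans (n_mod _ _).symm
  have a2 : n + j ≡ j' [MOD n] := by
    rw [show n + j = j + n * 1 by omega]
    exact (n_mod _ _).trans e2.symm
  have a3 : k' ≡ k + (n + ((n - 1) * k + k')) [MOD n] := by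
    obtain ⟨m, rfl⟩ : ∃ m, n = m + 1 := ⟨n - 1, by omega⟩
    rw [Nat.add_sub_cancel, show k + (m + 1 + (m * k + k')) = k' + (m + 1) * (k + 1) by ring]
    exact (n_mod _ _).symm
  have a4 : l + (n + ((n - 1) * k + k')) ≡ l' [MOD n] := by
    apply Nat.ModEq.add_left_cancel' j
    have b1 : j + (l + (n + ((n - 1) * k + k'))) ≡ i + (k + (n + ((n - 1) * k + k'))) [MOD n] := by
      have := Nat.ModEq.add_right (n + ((n - 1) * k + k')) t2.symm
      rw [show j + (l + (n + ((n - 1) * k + k'))) = j + l + (n + ((n - 1) * k + k')) by omega,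
        show i + (k + (n + ((n - 1) * k + k'))) = i + k + (n + ((n - 1) * k + k')) by omega]
      exact this
    refine b1.trans ?_
    refine (Nat.ModEq.add_left i a3.symm).trans ?_
    exact (Nat.ModEq.add_right k' e1.symm).trans (e3.trans (Nat.ModEq.add_right l' e2))
  exact tr' (fill hF H a1 a3 q1 q3 (by omega) (by omega))
    (tr' h3 (fill hF H a2 a4 (by omega) (by omega) q2 q4))

end Pool.Agent.MWFE.H85
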